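import Pool.Agent.H394R2.RG.PosGen

/-!
# Positive proportion of small `k`-gaps
-/

open Complex Filter Topology Set MeasureTheory

namespace RGap

open SG (hh nn dd dl ord NZ)
open SP (RHs ZZ mu wt Mk Par Eb PS chi qq tt)

theorem POSS_proof : POSS := by
  intro κ hκ k c _ hc h
  obtain ⟨η, ε, K, T0, hη, hε, hK, hT0, hloc⟩ := h
  unfold PosSmall
  apply pos_gen_aux (fun T n => ord (n + k) - ord n ≤ 2 * Real.pi * (c - η) / Real.log T) _
    (pos_gen κ hκ (fun T n => ord (n + k) - ord n ≤ 2 * Real.pi * (c - η) / Real.log T)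
      hε hK hloc)
  refine ⟨10, fun T hT10 n hn1 h3 h4 h6 => ?_⟩
  have hpi := Real.pi_gt_three
  have hlogT : 0 < Real.log T := Real.log_pos (by linarith)
  have hn0 : 0 < ord n := SG.ord_pos hn1
  have hgap : 0 ≤ (ord (n + k) - ord n) / (2 * Real.pi) := by
    have := SG.ord_mono hn1 (Nat.le_add_right n k)
    exact div_nonneg (by linarith) (by positivity)
  have h8 : Real.log (ord n / (2 * Real.pi)) ≤ Real.log T := by
    apply Real.log_le_log (by positivity)
    rw [div_le_iff₀ (by positivity)]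
    nlinarith
  have h10 : (ord (n + k) - ord n) / (2 * Real.pi) ≤ (c - η) / Real.log T := by
    rw [div_le_iff₀ (by positivity)]
    calc ord (n + k) - ord n ≤ 2 * Real.pi * (c - η) / Real.log T := h6
      _ = (c - η) / Real.log T * (2 * Real.pi) := by ring
  calc (ord (n + k) - ord n) / (2 * Real.pi) * Real.log (ord n / (2 * Real.pi))
      ≤ (ord (n + k) - ord n) / (2 * Real.pi) * Real.log T := mul_le_mul_of_nonneg_left h8 hgap
    _ ≤ (c - η) / Real.log T * Real.log T := mul_le_mul_of_nonneg_right h10 hlogT.le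
    _ = c - η := by field_simp
    _ < c := by linarith

theorem POST_proof : POST := by
  intro κ hκ k c _ hc h
  obtain ⟨η, ε, K, T0, hη, hε, hK, hT0, hloc⟩ := h
  obtain ⟨ε1, T1, hε1, hT1, hmain⟩ :=
    pos_gen κ hκ (fun T n => ord (n + k) - ord n ≤ 2 * Real.pi * (c - η) / Real.log T)
      hε hK hloc
  obtain ⟨T2, hT2⟩ := (tendsto_atTop.mp Real.tendsto_log_atTop
    (c * Real.log 2 / η)).exists_forall_of_atTop
  refine ⟨ε1 / 4, max (max (2 * T1) T2) (max (320 * c) 10), by positivity,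
    (le_max_right _ _).trans (le_max_right _ _), fun T hT => ?_⟩
  have hTT1 : 2 * T1 ≤ T := ((le_max_left _ _).trans (le_max_left _ _)).trans hT
  have hTT2 := hT2 T (((le_max_right _ _).trans (le_max_left _ _)).trans hT)
  have hTc : 320 * c ≤ T := ((le_max_left _ _).trans (le_max_right _ _)).trans hT
  have hT10 : 10 ≤ T := ((le_max_right _ _).trans (le_max_right _ _)).trans hT
  have hTpos : 0 < T := by linarith
  have hpi4 := Real.pi_lt_four
  have hpi := Real.pi_gt_three
  have hlog1 : 1 ≤ Real.log T := by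
    rw [Real.le_log_iff_exp_le hTpos]
    have := Real.exp_one_lt_d9
    linarith
  have hlog2 : Real.log (T / 2) = Real.log T - Real.log 2 := Real.log_div (by linarith) (by norm_num)
  have hl2 : 0 < Real.log 2 := Real.log_pos (by norm_num)
  have hl4 : 2 * Real.log 2 ≤ Real.log T := by
    have h1 : Real.log 4 ≤ Real.log T := Real.log_le_log (by norm_num) (by linarith)
    have h2 : Real.log 4 = 2 * Real.log 2 := by
      rw [show (4 : ℝ) = 2 ^ 2 by norm_num, Real.log_pow]
      norm_num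
    linarith
  have hlogh : 0 < Real.log (T / 2) := by
    rw [hlog2]
    linarith
  rw [div_le_iff₀ hη] at hTT2
  have hm := hmain (T / 2) (by linarith)
  have hkey : 2 * Real.pi * (c - η) / Real.log (T / 2) ≤ 2 * Real.pi * c / Real.log T := by
    rw [div_le_div_iff₀ hlogh (by linarith), mul_assoc, mul_assoc (2 * Real.pi) c]
    apply mul_le_mul_of_nonneg_left _ (by positivity)
    rw [hlog2]
    nlinarith
  have hc2 : 2 * Real.pi * c / Real.log T ≤ T / 40 := by
    have h1 : 2 * Real.pi * c / Real.log T ≤ 2 * Real.pi * c :=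
      div_le_self (by positivity) hlog1
    nlinarith
  have hsub : ({n : ℕ | 1 ≤ n ∧ 21 / 20 * (T / 2) ≤ ord n ∧ ord n ≤ 39 / 20 * (T / 2) ∧
        ord (n + k) - ord n ≤ 2 * Real.pi * (c - η) / Real.log (T / 2)}.ncard) ≤
      ({n : ℕ | 1 ≤ n ∧ ord (n + k) ≤ T ∧
        ord (n + k) - ord n ≤ 2 * Real.pi * c / Real.log T}.ncard) := by
    apply Set.ncard_le_ncard
    · rintro n ⟨a1, a2, a3, a4⟩
      refine ⟨a1, ?_, a4.trans hkey⟩
      linarith
    · apply LG.PosA.fin_ord T
      rintro n ⟨a1, a2, -⟩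
      have := SG.ord_mono a1 (Nat.le_add_right n k)
      exact ⟨a1, by linarith⟩
  have hsub' : (({n : ℕ | 1 ≤ n ∧ 21 / 20 * (T / 2) ≤ ord n ∧ ord n ≤ 39 / 20 * (T / 2) ∧
        ord (n + k) - ord n ≤ 2 * Real.pi * (c - η) / Real.log (T / 2)}.ncard : ℕ) : ℝ) ≤
      (({n : ℕ | 1 ≤ n ∧ ord (n + k) ≤ T ∧
        ord (n + k) - ord n ≤ 2 * Real.pi * c / Real.log T}.ncard : ℕ) : ℝ) := by
    exact_mod_cast hsub
  refine le_trans ?_ (hm.trans hsub')
  have h1 : Real.log T ≤ 2 * Real.log (T / 2) := by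
    rw [hlog2]
    linarith
  calc ε1 / 4 * (T * Real.log T) ≤ ε1 / 4 * (T * (2 * Real.log (T / 2))) := by
        apply mul_le_mul_of_nonneg_left _ (by positivity)
        exact mul_le_mul_of_nonneg_left h1 hTpos.le
    _ = ε1 * (T / 2 * Real.log (T / 2)) := by ring

end RGap
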