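import Pool.Agent.H394R2.RG.PosGen

/-!
# Positive proportion of large `k`-gaps
-/

open Complex Filter Topology Set MeasureTheory

namespace RGap

open SG (hh nn dd dl ord NZ)
open SP (RHs ZZ mu wt Mk Par Eb PS chi qq tt)

theorem POSL_proof : POSL := by
  intro κ hκ k c _ hc h
  obtain ⟨η, ε, K, T0, hη, hε, hK, hT0, hloc⟩ := h
  unfold PosLarge
  apply pos_gen_aux (fun T n => 2 * Real.pi * (c + η) / Real.log T < ord (n + k) - ord n) _
    (pos_gen κ hκ (fun T n => 2 * Real.pi * (c + η) / Real.log T < ord (n + k) - ord n)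
      hε hK hloc)
  -- `η log T ≥ (c + η) log (2π)`
  obtain ⟨T2, hT2⟩ := (tendsto_atTop.mp Real.tendsto_log_atTop
    ((c + η) * Real.log (2 * Real.pi) / η)).exists_forall_of_atTop
  refine ⟨max T2 10, fun T hT n hn1 h3 h4 h6 => ?_⟩
  have hT10 : 10 ≤ T := (le_max_right _ _).trans hT
  have hTT2 := hT2 T ((le_max_left _ _).trans hT)
  rw [div_le_iff₀ hη] at hTT2
  have hpi := Real.pi_gt_three
  have hpi4 := Real.pi_lt_four
  have hlogT : 0 < Real.log T := Real.log_pos (by linarith)
  have h8 : Real.log T - Real.log (2 * Real.pi) ≤ Real.log (ord n / (2 * Real.pi)) := by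
    rw [← Real.log_div (by linarith) (by positivity)]
    apply Real.log_le_log (by positivity)
    exact div_le_div_of_nonneg_right (by linarith) (by positivity)
  have h9 : 0 < Real.log T - Real.log (2 * Real.pi) := by
    have : Real.log (2 * Real.pi) < Real.log T := Real.log_lt_log (by positivity) (by linarith)
    linarith
  have h10 : (c + η) / Real.log T < (ord (n + k) - ord n) / (2 * Real.pi) := by
    rw [lt_div_iff₀ (by positivity)]
    calc (c + η) / Real.log T * (2 * Real.pi) = 2 * Real.pi * (c + η) / Real.log T := by ring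
      _ < _ := h6
  have h11 : c ≤ (c + η) / Real.log T * (Real.log T - Real.log (2 * Real.pi)) := by
    rw [div_mul_eq_mul_div, le_div_iff₀ hlogT]
    nlinarith
  have h12 : 0 < (c + η) / Real.log T := by positivity
  calc c ≤ (c + η) / Real.log T * (Real.log T - Real.log (2 * Real.pi)) := h11
    _ < (ord (n + k) - ord n) / (2 * Real.pi) * (Real.log T - Real.log (2 * Real.pi)) :=
        mul_lt_mul_of_pos_right h10 h9
    _ ≤ (ord (n + k) - ord n) / (2 * Real.pi) * Real.log (ord n / (2 * Real.pi)) :=
        mul_le_mul_of_nonneg_left h8 (h12.trans h10).le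

end RGap
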