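import Pool.Agent.H360R2.RG.Stubs
import Pool.Agent.H506R2.LG.Pos

/-!
# From local statements to positive proportions (general version of `Pool.Agent.H506R2.LG.Pos`)
-/

open Complex Filter Topology Set MeasureTheory

namespace RGap

open SG (hh nn dd dl ord NZ)
open SP (RHs ZZ mu wt Mk Par Eb PS chi qq tt)

/-- many good indices with ordinates in `[21/20 T, 39/20 T]` -/
theorem pos_gen (κ : ℝ) (hκ : 0 < κ) (Q : ℝ → ℕ → Prop) {ε K T0 : ℝ} (hε : 0 < ε) (hK : 1 ≤ K)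
    (hloc : ∀ T : ℝ, T0 ≤ T → ∀ t0 : ℝ, 11 / 10 * T ≤ t0 → t0 ≤ 19 / 10 * T →
      ε * dd κ T * Real.log T ≤ ({n : ℕ | 1 ≤ n ∧ |ord n - t0| ≤ K * dd κ T ∧
        Q T n}.ncard : ℝ)) :
    ∃ ε T0 : ℝ, 0 < ε ∧ 10 ≤ T0 ∧ ∀ T : ℝ, T0 ≤ T →
    ε * (T * Real.log T) ≤
      ({n : ℕ | 1 ≤ n ∧ 21 / 20 * T ≤ ord n ∧ ord n ≤ 39 / 20 * T ∧
        Q T n}.ncard : ℝ) := by
  have hlim : Tendsto (fun T : ℝ => T ^ (κ / 2)) atTop atTop := tendsto_rpow_atTop (by linarith)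
  obtain ⟨T1, hT1⟩ := (tendsto_atTop.mp hlim (100 * K)).exists_forall_of_atTop
  refine ⟨ε / (10 * K), max (max T0 T1) 1000, by positivity, ?_, fun T hT => ?_⟩
  · exact le_trans (by norm_num) (le_max_right _ _)
  have hTT0 : T0 ≤ T := ((le_max_left _ _).trans (le_max_left _ _)).trans hT
  have hTT1 : T1 ≤ T := ((le_max_right _ _).trans (le_max_left _ _)).trans hT
  have hT1000 : 1000 ≤ T := (le_max_right _ _).trans hT
  have hTpos : 0 < T := by linarith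
  have hlog1 : 1 ≤ Real.log T := by
    rw [Real.le_log_iff_exp_le hTpos]
    have := Real.exp_one_lt_d9
    linarith
  set Δ : ℝ := dd κ T with hΔ
  have hΔ0 : 0 < Δ := by
    rw [hΔ]
    unfold dd
    positivity
  -- K Δ ≤ T / 100
  have hKΔ : 100 * (K * Δ) ≤ T := by
    have h1 := hT1 T hTT1
    have h2 : T ^ (κ / 2) * Δ = T := by
      rw [hΔ]
      unfold dd
      rw [← Real.rpow_add hTpos]
      have : κ / 2 + (1 - κ / 2) = 1 := by ring
      rw [this, Real.rpow_one]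
    calc 100 * (K * Δ) = (100 * K) * Δ := by ring
      _ ≤ T ^ (κ / 2) * Δ := mul_le_mul_of_nonneg_right h1 hΔ0.le
      _ = T := h2
  have hKΔ0 : 0 < K * Δ := by positivity
  set M : ℕ := ⌊(8 / 10 * T) / (3 * (K * Δ))⌋₊ with hM
  have hM1 : (M : ℝ) ≤ (8 / 10 * T) / (3 * (K * Δ)) := Nat.floor_le (by positivity)
  have hM2 : (8 / 10 * T) / (3 * (K * Δ)) < M + 1 := Nat.lt_floor_add_one _
  have hM3 : T / (10 * (K * Δ)) ≤ M := by
    have h1 : (8 / 10 * T) / (3 * (K * Δ)) = 8 / 30 * (T / (K * Δ)) := by field_simp; norm_num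
    have h2 : T / (10 * (K * Δ)) = 1 / 10 * (T / (K * Δ)) := by field_simp
    have h3 : 100 ≤ T / (K * Δ) := by
      rw [le_div_iff₀ hKΔ0]
      exact hKΔ
    rw [h1] at hM2
    rw [h2]
    linarith
  set S : Set ℕ := {n : ℕ | 1 ≤ n ∧ 21 / 20 * T ≤ ord n ∧ ord n ≤ 39 / 20 * T ∧
        Q T n} with hS
  have hSfin : S.Finite := by
    apply LG.PosA.fin_ord (39 / 20 * T)
    intro n hn
    exact ⟨hn.1, hn.2.2.1⟩
  set t : ℕ → ℝ := fun i => 11 / 10 * T + 3 * (K * Δ) * i with ht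
  set W : ℕ → Set ℕ := fun i => {n : ℕ | 1 ≤ n ∧ |ord n - t i| ≤ K * dd κ T ∧
        Q T n} with hW
  have hti : ∀ i < M, 11 / 10 * T ≤ t i ∧ t i ≤ 19 / 10 * T := by
    intro i hi
    have hiM : (i : ℝ) ≤ M := by exact_mod_cast hi.le
    have h1 : 3 * (K * Δ) * i ≤ 8 / 10 * T := by
      have h2 : (i : ℝ) ≤ (8 / 10 * T) / (3 * (K * Δ)) := hiM.trans hM1
      rw [le_div_iff₀ (by positivity)] at h2
      linarith
    have h3 : 0 ≤ 3 * (K * Δ) * (i : ℝ) := by positivity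
    constructor
    · simp only [ht]; linarith
    · simp only [ht]; linarith
  have hsub : ∀ i < M, W i ⊆ S := by
    intro i hi n hn
    obtain ⟨h1, h2, h3⟩ := hn
    obtain ⟨h4, h5⟩ := hti i hi
    rw [abs_le] at h2
    rw [← hΔ] at h2
    exact ⟨h1, by linarith, by linarith, h3⟩
  have hdisj : ∀ i < M, ∀ j < M, i ≠ j → Disjoint (W i) (W j) := by
    intro i _ j _ hij
    rw [Set.disjoint_left]
    intro n hn hn'
    have h1 := abs_le.mp hn.2.1
    have h2 := abs_le.mp hn'.2.1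
    rw [← hΔ] at h1 h2
    simp only [ht] at h1 h2
    rcases Nat.lt_or_gt_of_ne hij with h | h
    · have h3 : (i : ℝ) + 1 ≤ j := by exact_mod_cast h
      have h4 : 3 * (K * Δ) * ((i : ℝ) + 1) ≤ 3 * (K * Δ) * j :=
        mul_le_mul_of_nonneg_left h3 (by positivity)
      nlinarith
    · have h3 : (j : ℝ) + 1 ≤ i := by exact_mod_cast h
      have h4 : 3 * (K * Δ) * ((j : ℝ) + 1) ≤ 3 * (K * Δ) * i :=
        mul_le_mul_of_nonneg_left h3 (by positivity)
      nlinarith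
  have hcount : ∀ i < M, ε * Δ * Real.log T ≤ ((W i).ncard : ℝ) := by
    intro i hi
    exact hloc T hTT0 (t i) (hti i hi).1 (hti i hi).2
  have hfinal := LG.PosA.card_windows hSfin M W hsub hdisj _ hcount
  refine le_trans ?_ hfinal
  have h5 : 0 ≤ ε * Δ * Real.log T := by positivity
  calc ε / (10 * K) * (T * Real.log T) = T / (10 * (K * Δ)) * (ε * Δ * Real.log T) := by
        field_simp
    _ ≤ M * (ε * Δ * Real.log T) := mul_le_mul_of_nonneg_right hM3 h5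

/-- in terms of the first `N` gaps, normalised by the local density -/
theorem pos_gen_aux (Q : ℝ → ℕ → Prop) (P : ℕ → Prop)
    (h : ∃ ε T0 : ℝ, 0 < ε ∧ 10 ≤ T0 ∧ ∀ T : ℝ, T0 ≤ T →
      ε * (T * Real.log T) ≤
        ({n : ℕ | 1 ≤ n ∧ 21 / 20 * T ≤ ord n ∧ ord n ≤ 39 / 20 * T ∧
          Q T n}.ncard : ℝ))
    (hP : ∃ T2 : ℝ, ∀ T : ℝ, T2 ≤ T → ∀ n : ℕ, 1 ≤ n → 21 / 20 * T ≤ ord n → ord n ≤ 39 / 20 * T →
      Q T n → P n) :
    ∃ ε : ℝ, 0 < ε ∧ ∀ᶠ N : ℕ in atTop, ε * N ≤ (({n : ℕ | 1 ≤ n ∧ n ≤ N ∧ P n}.ncard : ℕ) : ℝ) := by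
  obtain ⟨ε, T0, hε, hT0, hb⟩ := h
  obtain ⟨T2, hT2⟩ := hP
  obtain ⟨C, T1, hC, hT1, hup⟩ := LG.PosA.NZ_up
  refine ⟨ε / C, by positivity, ?_⟩
  set X0 : ℝ := max (max T0 T1) T2 with hX0
  have hX03 : 3 ≤ X0 := hT1.trans ((le_max_right _ _).trans (le_max_left _ _))
  have hlim : Tendsto (fun N : ℕ => (N : ℝ) / C) atTop atTop :=
    tendsto_natCast_atTop_atTop.atTop_div_const hC
  filter_upwards [hlim.eventually_gt_atTop (X0 * Real.log X0)] with N hN
  -- choose T with T log T = N / C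
  have hX0l : 1 ≤ Real.log X0 := by
    rw [Real.le_log_iff_exp_le (by linarith)]
    have := Real.exp_one_lt_d9
    linarith
  set y : ℝ := (N : ℝ) / C with hy
  have hyX : X0 ≤ y := by nlinarith
  have hlogy : 1 ≤ Real.log y := hX0l.trans (Real.log_le_log (by linarith) hyX)
  have hcont : ContinuousOn (fun T : ℝ => T * Real.log T) (Set.Icc X0 y) := by
    apply ContinuousOn.mul continuousOn_id
    apply Real.continuousOn_log.mono
    intro x hx
    simp only [Set.mem_compl_iff, Set.mem_singleton_iff]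
    have := hx.1
    linarith
  have hiv := intermediate_value_Icc hyX hcont
  have hmem : y ∈ Set.Icc (X0 * Real.log X0) (y * Real.log y) := ⟨hN.le, by nlinarith⟩
  obtain ⟨T, hTm, hTe⟩ := hiv hmem
  simp only at hTe
  have hXT : X0 ≤ T := hTm.1
  have hTT0 : T0 ≤ T := ((le_max_left _ _).trans (le_max_left _ _)).trans hXT
  have hTT1 : T1 ≤ T := ((le_max_right _ _).trans (le_max_left _ _)).trans hXT
  have hTT2 : T2 ≤ T := (le_max_right _ _).trans hXT
  have h1 := hb T hTT0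
  have h2 := hup T hTT1
  rw [hTe] at h1 h2
  have h3 : C * y = N := by rw [hy]; field_simp
  rw [h3] at h2
  have h2' : NZ (2 * T) ≤ N := by exact_mod_cast h2
  have h4 : ε / C * N = ε * y := by rw [hy]; field_simp
  rw [h4]
  refine h1.trans ?_
  have h5 : ({n : ℕ | 1 ≤ n ∧ 21 / 20 * T ≤ ord n ∧ ord n ≤ 39 / 20 * T ∧
          Q T n}.ncard) ≤
        ({n : ℕ | 1 ≤ n ∧ n ≤ N ∧ P n}.ncard) := by
    apply Set.ncard_le_ncard
    · rintro n ⟨a1, a2, a3, a4⟩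
      have a5 := (SG.ord_le_iff a1 (2 * T)).mp (a3.trans (by linarith))
      exact ⟨a1, a5.trans h2', hT2 T hTT2 n a1 a2 a3 a4⟩
    · refine (Set.finite_Iic N).subset ?_
      intro n hn
      exact hn.2.1
  exact_mod_cast h5

end RGap
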